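import Pool.Agent.R272.ConeFix

set_option autoImplicit false

/-!
# No differentiable retraction onto the fixed point set

On `ℝ³` with the sup norm there is a nonexpansive real analytic map `f` with a fixed point such that
no retraction of `ℝ³` onto the fixed point set of `f` is differentiable.
-/

namespace Pool.Agent.Results.MP_735b88_an.NoDifferentiableRetraction

open Filter Topology

/-- The norm of `X` is polyhedral: it is the maximum of finitely many linear functionals. -/
def IsPolyhedral (X : Type) [NormedAddCommGroup X] [NormedSpace ℝ X] : Prop :=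
  ∃ (m : ℕ) (φ : Fin m → X →ₗ[ℝ] ℝ), ∀ x : X, IsGreatest (Set.range fun i => φ i x) ‖x‖

/-- `r` is a retraction of `X` onto `A`. -/
def IsRetractionOnto {X : Type} (r : X → X) (A : Set X) : Prop :=
  Set.range r = A ∧ ∀ a ∈ A, r a = a

/-- the six functionals `± x_i` on `ℝ³` -/
def fn (i : Fin 6) : (Fin 3 → ℝ) →ₗ[ℝ] ℝ :=
  ![LinearMap.proj 0, -LinearMap.proj 0, LinearMap.proj 1, -LinearMap.proj 1, LinearMap.proj 2,
    -LinearMap.proj 2] i

theorem isPolyhedral : IsPolyhedral (Fin 3 → ℝ) := by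
  refine ⟨6, fn, fun x => ⟨?_, ?_⟩⟩
  · obtain ⟨i, hi⟩ := (Pool.Agent.R272.ConeFix.norm_isGreatest x).1
    have hi' : |x i| = ‖x‖ := hi
    rcases abs_choice (x i) with h | h
    · rw [h] at hi'
      fin_cases i
      · exact ⟨0, hi'⟩
      · exact ⟨2, hi'⟩
      · exact ⟨4, hi'⟩
    · rw [h] at hi'
      fin_cases i
      · exact ⟨1, hi'⟩
      · exact ⟨3, hi'⟩
      · exact ⟨5, hi'⟩
  · rintro _ ⟨i, rfl⟩
    have h0 := norm_le_pi_norm x 0
    have h1 := norm_le_pi_norm x 1
    have h2 := norm_le_pi_norm x 2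
    rw [Real.norm_eq_abs, abs_le'] at h0 h1 h2
    fin_cases i
    · exact h0.1
    · exact h0.2
    · exact h1.1
    · exact h1.2
    · exact h2.1
    · exact h2.2

open Pool.Agent.R272.ConeFix in
theorem no_retraction (r : (Fin 3 → ℝ) → (Fin 3 → ℝ))
    (hr : IsRetractionOnto r {x | f x = x}) : ¬ DifferentiableAt ℝ r 0 := by
  intro hd
  have hr0 : r 0 = 0 := hr.2 0 fix_origin
  set D := fderiv ℝ r 0 with hD
  have hDid : ∀ v i, D v i = v i := by
    intro v i
    have hg : HasFDerivAt (fun x => r x i - x i)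
        ((ContinuousLinearMap.proj (R := ℝ) (φ := fun _ : Fin 3 => ℝ) i).comp D -
          ContinuousLinearMap.proj (R := ℝ) (φ := fun _ : Fin 3 => ℝ) i) 0 :=
      ((ContinuousLinearMap.proj (R := ℝ) (φ := fun _ : Fin 3 => ℝ) i).hasFDerivAt.comp 0
        hd.hasFDerivAt).sub (ContinuousLinearMap.proj (R := ℝ) (φ := fun _ : Fin 3 => ℝ) i).hasFDerivAt
    have hz := fderiv_zero hg (Eventually.of_forall fun x hx => by rw [hr.2 x hx, sub_self])
    have e1 := congrArg (fun L : (Fin 3 → ℝ) →L[ℝ] ℝ => L v) hz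
    simp only [ContinuousLinearMap.sub_apply, ContinuousLinearMap.comp_apply,
      ContinuousLinearMap.proj_apply, ContinuousLinearMap.zero_apply] at e1
    linarith
  have h1 := (hasFDerivAt_iff_isLittleO_nhds_zero.1 hd.hasFDerivAt).def
    (by norm_num : (0 : ℝ) < 1 / 4)
  obtain ⟨δ, hδ, hδ'⟩ := Metric.eventually_nhds_iff.1 h1
  set t := δ / 2 with ht
  have ht0 : 0 < t := by positivity
  set p : Fin 3 → ℝ := Pi.single 2 t with hp
  have hpn : ‖p‖ = t := by
    rw [hp, Pi.norm_single, Real.norm_of_nonneg ht0.le]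
  have h2 := hδ' (y := p) (by rw [dist_zero_right, hpn]; linarith)
  rw [zero_add, hr0, sub_zero, hpn] at h2
  have h3 : ∀ i, |r p i - p i| ≤ 1 / 4 * t := by
    intro i
    have e1 := (norm_le_pi_norm (r p - (fderiv ℝ r 0) p) i).trans h2
    rw [Pi.sub_apply, Real.norm_eq_abs] at e1
    have e2 : (fderiv ℝ r 0) p i = p i := hDid p i
    rwa [e2] at e1
  have hp0 : p 0 = 0 := by simp [hp]
  have hp1 : p 1 = 0 := by simp [hp]
  have hp2 : p 2 = t := by simp [hp]
  have h30 := h3 0
  have h31 := h3 1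
  have h32 := h3 2
  rw [hp0, sub_zero] at h30
  rw [hp1, sub_zero] at h31
  rw [hp2] at h32
  rw [abs_le] at h30 h31 h32
  refine not_fix (p := r p) (by linarith [h30.2, h32.1]) (by linarith [h31.2, h32.1])
    (by linarith [h32.1]) ?_
  have : r p ∈ Set.range r := ⟨p, rfl⟩
  rw [hr.1] at this
  exact this

/-- There are a polyhedral normed space `X` and a nonexpansive real analytic map `f : X → X` with a
fixed point such that no retraction of `X` onto the fixed point set of `f` (nonexpansive or not) is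
differentiable at every point of `X`. -/
theorem result : ∃ (X : Type) (_ : NormedAddCommGroup X) (_ : NormedSpace ℝ X),
    FiniteDimensional ℝ X ∧ IsPolyhedral X ∧
    ∃ f : X → X, (∀ x y, ‖f x - f y‖ ≤ ‖x - y‖) ∧ AnalyticOnNhd ℝ f Set.univ ∧
      (∃ x, f x = x) ∧
      ∀ r : X → X, IsRetractionOnto r {x | f x = x} → ¬ Differentiable ℝ r :=
  ⟨Fin 3 → ℝ, inferInstance, inferInstance, inferInstance, isPolyhedral,
    Pool.Agent.R272.ConeFix.f, Pool.Agent.R272.ConeFix.nonexpansive,
    Pool.Agent.R272.ConeFix.analytic, ⟨0, Pool.Agent.R272.ConeFix.fix_origin⟩,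
    fun r hr hd => no_retraction r hr (hd 0)⟩

end Pool.Agent.Results.MP_735b88_an.NoDifferentiableRetraction
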